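import Pool.Agent.helper19.MX.SpecC

/-!
# MX LA2: the polynomial `X^2 + X + s^(-3)` has no root in `kk((s))`
-/

namespace MX

open Pool.Agent.helper53.AU AN

open scoped Classical Topology

/-- a Laurent series which is not in `GE kk 0` has a least exponent, which is negative -/
theorem LA2_least (z : LS kk) (hz : z ∉ GE kk 0) : ∃ m : ℤ, m < 0 ∧ z ∈ GE kk m ∧ cf z m ≠ 0 := by
  obtain ⟨N, hN⟩ := exists_lb_nat z
  have h1 : ∃ m : ℤ, m < 0 ∧ cf z m ≠ 0 := by
    by_contra hc
    push Not at hc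
    exact hz (mem_GE.2 fun n hn => hc n hn)
  obtain ⟨m, ⟨hm0, hm⟩, hmin⟩ := Int.exists_least_of_bdd
    (P := fun m : ℤ => m < 0 ∧ cf z m ≠ 0)
    ⟨-(N : ℤ), fun k hk => by
      by_contra hc
      exact hk.2 (hN k (not_le.mp hc))⟩ h1
  refine ⟨m, hm0, mem_GE.2 fun n hn => ?_, hm⟩
  by_contra hc
  exact absurd (hmin n ⟨by omega, hc⟩) (by omega)

theorem LA2 : LA2_stmt := by
  intro z hz
  by_cases h0 : z ∈ GE kk 0
  · have h1 : z ^ 2 + z ∈ GE kk 0 := by
      rw [pow_two]
      refine (GE kk 0).add_mem ?_ h0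
      have h2 := GE_mul h0 h0
      rwa [add_zero] at h2
    rw [hz] at h1
    have h3 := mem_GE.1 h1 (-3) (by norm_num)
    rw [cf_mono, if_pos rfl] at h3
    exact one_ne_zero h3
  · obtain ⟨m, hm0, hm, hne⟩ := LA2_least z h0
    have h1 : cf (z ^ 2 + z) (m + m) = cf z m * cf z m := by
      rw [pow_two, cf_add, cf_mul_lead hm hm, mem_GE.1 hm (m + m) (by omega), add_zero]
    rw [hz, cf_mono] at h1
    by_cases h2 : m + m = -3
    · omega
    · rw [if_neg h2] at h1
      exact mul_ne_zero hne hne h1.symm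

end MX
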